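import Mathlib
import Pool.Agent.H.MP_47f029_co.A
set_option autoImplicit false

namespace Pool.Agent.H.MP_7ffbdd_al
open Finset Pool.Agent.H.MP_16c276_co Pool.Agent.H.MP_cf6e1a_co Pool.Agent.H.MP_47f029_co

def ph (i : Fin 43) (x : Fin 7) : Fin 43 :=
  Fin.ofNat 43 (if x.1 = 0 then 0 else 7 * x.1 - 6 + (i.1 / 7 * x.1 + i.1) % 7)

def L : List ℕ := [57, 60, 92, 116, 89, 83, 114, 102, 71]

def bl (i : Fin 43) (m : ℕ) : Finset (Fin 43) := (dec 7 m).image (ph i)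

def G (σ : Finset (Fin 43)) : Prop := ∃ i, ∃ m ∈ L, σ ⊆ bl i m

theorem p0 : (∀ i, ph i 0 = 0) ∧ (∀ i x, ((ph i x).1 + 6) / 7 = x) ∧ (∀ v, ∃ i x, ph i x = v) ∧
    ∀ i j a, ph i a = ph j a → a ≠ 0 → ∀ c, ph i c = ph j c → c ≠ 0 → c ≠ a → i = j := by
  decide +kernel

theorem p1 {i j : Fin 43} {a b : Fin 7} (h : ph i a = ph j b) : a = b :=
  Fin.ext (by rw [← p0.2.1 i a, h, p0.2.1])

theorem mem_bl {i : Fin 43} {x : Fin 7} {m : ℕ} : ph i x ∈ bl i m ↔ x ∈ dec 7 m :=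
  Function.Injective.mem_finset_image fun _ _ => p1

theorem two {i j : Fin 43} {a c : Fin 7} {m m' : ℕ} (ha : a ≠ 0) (hc : c ≠ 0) (h : c ≠ a)
    (h1 : ph i a ∈ bl j m) (h2 : ph i c ∈ bl j m') : i = j := by
  obtain ⟨x, -, e⟩ := mem_image.1 h1
  obtain ⟨y, -, f⟩ := mem_image.1 h2
  obtain rfl := p1 e
  obtain rfl := p1 f
  exact p0.2.2.2 i j x e.symm ha y f.symm hc h

theorem inI {m r σ : ℕ} (h : r < 2 ^ 7) (h' : σ < 2 ^ 7) :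
    In m r σ = true ↔ dec 7 r ⊆ dec 7 σ ∧ dec 7 σ ⊆ dec 7 m := by
  rw [In, Bool.and_eq_true, Nat.beq_eq, Nat.beq_eq]
  exact ⟨fun a => ⟨sub1 a.1, sub1 a.2⟩, fun a => ⟨sub2 h a.1, sub2 h' a.2⟩⟩

def It : List ℕ := [6, 7, 12, 18, 19, 20, 24, 25, 28, 34, 36, 38, 40, 41, 44, 48, 49, 50, 52, 56,
  57, 60, 66, 67, 68, 69, 70, 71, 72, 73, 76, 80, 81, 82, 83, 84, 88, 89, 92, 96, 98, 100, 102, 112,
  114, 116]

def C : List ℕ := [69, 73, 89, 41, 57, 92, 60, 81, 84, 116, 19, 83, 114, 102, 7, 114, 102, 7, 19,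
  84, 116, 114, 102, 7, 60, 116, 76, 71, 102, 114, 83, 7, 102, 114, 83, 49, 92, 60, 81, 84, 116, 19,
  83, 114, 102, 7, 114, 102, 7, 19, 84, 116, 114, 102, 7, 60, 116, 76, 71, 102, 114, 83, 7, 102,
  114, 83, 76, 92, 19, 83, 71, 41, 44, 60, 49, 116, 114, 38, 25, 60, 49, 116, 114, 38, 49, 116, 60,
  57, 114, 102, 7, 60, 116, 114, 41, 25, 102, 7, 71, 49, 60, 116, 84, 102, 114, 19, 41, 25, 41, 60,
  84, 116, 102, 114, 19, 83, 7, 25, 49, 57, 60, 116, 84, 114, 38, 41, 60, 116, 84, 114, 38, 49, 41,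
  60, 116, 84, 114, 38, 92, 41, 60, 116, 81, 7, 71, 102, 114, 83, 102, 114, 83, 57, 49, 25, 60, 81,
  84, 116, 19, 83, 114, 102, 7, 114, 102, 7, 19, 84, 116, 114, 102, 7, 76, 49, 116, 60, 57, 7, 71,
  102, 114, 19, 102, 114, 83, 25, 41, 60, 116, 71, 102, 114, 83, 7, 102, 114, 83, 7, 73, 41, 76, 57,
  49, 89, 92, 60, 116, 102, 114, 19, 89, 92, 60, 116, 102, 114, 83, 25, 92, 60, 116, 102, 114, 19,
  60, 89, 57, 67, 81, 116, 84, 83, 114, 38, 116, 19, 84, 114, 38, 81, 116, 19, 84, 114, 38, 84, 116,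
  102, 114, 83, 57, 49, 76, 89, 92, 60, 116, 102, 114, 83, 25, 92, 60, 116, 102, 114, 19, 60, 89,
  67, 81, 116, 84, 83, 114, 38, 116, 19, 84, 114, 38, 81, 116, 19, 84, 114, 38, 116, 84, 25, 102,
  114, 19, 92, 81, 49, 60, 116, 84, 102, 114, 19, 41, 25, 41, 60, 84, 116, 102, 114, 19, 19, 67, 25,
  49, 57, 60, 116, 84, 114, 38, 41, 60, 116, 84, 114, 38, 49, 41, 60, 116, 84, 114, 38, 76, 49, 57,
  60, 116, 102, 114, 83, 25, 60, 116, 102, 114, 83, 41, 25, 60, 116, 102, 114, 83]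

def ok (f r : ℕ) : Bool := L.any (fun m => In m 0 f) && In f 0 r && (bt 7 r).length ≤ 2 &&
  (List.range 7).all fun x => x == 0 || !In f r (1 ||| 2 ^ x)

theorem c1 : (∀ σ ∈ It, σ < 2 ^ 7 ∧ (∃ m ∈ L, m &&& σ = σ) ∧ ∃ a ∈ dec 7 σ, ∃ c ∈ dec 7 σ, a ≠ 0 ∧
    c ≠ 0 ∧ c ≠ a) ∧ ∀ x : Fin 7, 1 ||| 2 ^ x.1 < 2 ^ 7 ∧ dec 7 (1 ||| 2 ^ x.1) = {0, x} ∧
      ∃ m ∈ L, {0, x} ⊆ dec 7 m := by decide +kernel

theorem c2 : (fL ((List.range (2 ^ 7)).flatMap fun f => ((List.range (2 ^ 7)).filter (ok f)).map fun r =>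
    bs (It.filter (In f r))) fun O => force (bs It) fun S => go O S 40 0 C).isSome = true := by
  decide +kernel

theorem core {ι : Type} (D : ι → Prop) (R F : ι → Finset (Fin 43))
    (h1 : ∀ p, D p → (R p).card ≤ 2 ∧ G (F p)) (h2 : ∀ σ, G σ → ∃ p, D p ∧ R p ⊆ σ ∧ σ ⊆ F p)
    (h3 : ∀ σ p q, D p → D q → R p ⊆ σ → σ ⊆ F p → R q ⊆ σ → σ ⊆ F q → p = q) : False := by
  have b : ∀ v : Fin 43, ∃ j, ∀ p, D p → R p ⊆ {0, v} → {0, v} ⊆ F p → ∃ m, F p ⊆ bl j m := fun v => by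
    by_cases h : ∃ p, D p ∧ R p ⊆ {0, v} ∧ {0, v} ⊆ F p
    · obtain ⟨p, a, b, c⟩ := h
      obtain ⟨j, m, -, e⟩ := (h1 p a).2
      exact ⟨j, fun q d f g => ⟨m, h3 _ p q a d b c f g ▸ e⟩⟩
    · exact ⟨0, fun p a b c => (h ⟨p, a, b, c⟩).elim⟩
  choose β hβ using b
  obtain ⟨i, -, hi⟩ := exists_mem_notMem_of_card_lt_card (s := (univ.erase 0).image β) (t := univ)
    (card_image_le.trans_lt (card_erase_lt_of_mem (mem_univ _)))
  have c := c2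
  rw [fL_eq, force_eq] at c
  refine Bool.false_ne_true ((congrArg Option.isSome (go_ok _ _ (fun s => ∃ p r f, D p ∧ r < 2 ^ 7 ∧
    f < 2 ^ 7 ∧ ok f r ∧ (∀ σ < 2 ^ 7, In f r σ ↔ R p ⊆ bl i σ ∧ bl i σ ⊆ F p) ∧
    s = bs (It.filter (In f r))) ?_ (fun σ h => ?_) ?_ 40 0 C (by simp))).symm.trans c)
  · rintro _ ⟨p, r, f, -, a, b, c, -, rfl⟩
    exact List.mem_flatMap.2 ⟨f, List.mem_range.2 b, List.mem_map.2 ⟨r, List.mem_filter.2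
      ⟨List.mem_range.2 a, c⟩, rfl⟩⟩
  · obtain ⟨s1, ⟨m0, s2, s3⟩, a, a1, c, c3, a0, c0, ac⟩ := c1.1 σ (mem_bs h)
    obtain ⟨p, d, e1, e2⟩ := h2 (bl i σ) ⟨i, m0, s2, image_subset_image (sub1 s3)⟩
    have u : ∀ j m, F p ⊆ bl j m → i = j := fun j m e =>
      two a0 c0 ac (e (e2 (mem_bl.2 a1))) (e (e2 (mem_bl.2 c3)))
    obtain ⟨k, j, m, m1, m2⟩ := h1 p d
    obtain rfl := u j m m2
    obtain ⟨r, r1, r2⟩ := dec_surj (univ.filter fun x => ph i x ∈ R p)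
    obtain ⟨f, f1, f2⟩ := dec_surj (univ.filter fun x => ph i x ∈ F p)
    have r3 : ∀ x, x ∈ dec 7 r ↔ ph i x ∈ R p := by simp [r2]
    have f3 : ∀ x, x ∈ dec 7 f ↔ ph i x ∈ F p := by simp [f2]
    have k1 : ∀ τ < 2 ^ 7, In f r τ ↔ R p ⊆ bl i τ ∧ bl i τ ⊆ F p := fun τ t => (inI r1 t).trans
      (and_congr ⟨fun a v b => by
        obtain ⟨x, -, rfl⟩ := mem_image.1 (e1 b)
        exact mem_bl.2 (a ((r3 x).2 b)), fun a x b => mem_bl.1 (a ((r3 x).1 b))⟩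
        ⟨fun a => image_subset_iff.2 fun x b => (f3 x).1 (a b), fun a x b => (f3 x).2 (a (mem_bl.2 b))⟩)
    refine ⟨_, ⟨p, r, f, d, r1, f1, ?_, k1, rfl⟩, bs_mem (List.mem_filter.2 ⟨mem_bs h,
      (k1 σ s1).2 ⟨e1, e2⟩⟩)⟩
    have z : ∀ a, dec 7 0 ⊆ dec 7 a := fun a => by simp [dec]
    simp only [ok, Bool.and_eq_true, List.any_eq_true, List.all_eq_true, decide_eq_true_eq,
      Bool.or_eq_true, beq_iff_eq, Bool.not_eq_true', List.mem_range]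
    refine ⟨⟨⟨⟨m, m1, (inI (by decide) f1).2 ⟨z _, fun x b => mem_bl.1 (m2 ((f3 x).1 b))⟩⟩,
      (inI (by decide) r1).2 ⟨z _, fun x b => (f3 x).2 (e2 (e1 ((r3 x).1 b)))⟩⟩, card_dec ▸
      (card_le_card_of_injOn (ph i) (fun x b => (r3 x).1 b) fun _ _ _ _ => p1).trans k⟩, fun x hx =>
      or_iff_not_imp_left.2 fun x0 => Bool.eq_false_iff.2 fun w => ?_⟩
    obtain ⟨t1, t2, -⟩ := c1.2 ⟨x, hx⟩
    have w := (k1 _ t1).1 w
    rw [bl, t2, image_insert, image_singleton, p0.1] at w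
    obtain ⟨m', y⟩ := hβ _ p d w.1 w.2
    exact hi (mem_image.2 ⟨_, mem_erase.2 ⟨fun q => x0 (congrArg Fin.val (p1 (q.trans (p0.1 i).symm))),
      mem_univ _⟩, (u _ _ y).symm⟩)
  · rintro _ _ σ ⟨p, r, f, a, -, -, -, b, rfl⟩ ⟨q, r', f', a', -, -, -, b', rfl⟩ d e
    have d := List.mem_filter.1 (mem_bs d)
    have s := (c1.1 σ d.1).1
    have d' := (b σ s).1 d.2
    have e := (b' σ s).1 (List.mem_filter.1 (mem_bs e)).2
    obtain rfl := h3 _ p q a a' d'.1 d'.2 e.1 e.2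
    exact congrArg bs (List.filter_congr fun τ t => Bool.eq_iff_iff.2
      ((b τ (c1.1 τ t).1).trans (b' τ (c1.1 τ t).1).symm))

def zs {n : ℕ} (b : Fin n → ℕ) : Finset (Fin n) := univ.filter fun j => b j = 0

theorem mem_zs {n : ℕ} {b : Fin n → ℕ} {j : Fin n} : j ∈ zs b ↔ b j = 0 := by simp [zs]

def cn (a : Fin 43 → ℕ) (Z : Finset (Fin 43)) (b : Fin 43 → ℕ) : Prop :=
  ∀ j, (j ∈ Z → a j ≤ b j) ∧ (j ∉ Z → b j = a j)

theorem core2 {ι : Type} (D : ι → Prop) (a : ι → Fin 43 → ℕ) (Z : ι → Finset (Fin 43))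
    (h1 : ∀ p, D p → 41 ≤ (Z p).card ∧ G (zs (a p))) (h2 : ∀ b, G (zs b) → ∃ p, D p ∧ cn (a p) (Z p) b)
    (h3 : ∀ b p q, D p → D q → cn (a p) (Z p) b → cn (a q) (Z q) b → p = q) : False := by
  have k : ∀ σ p, (∀ j, a p j ≤ 1) → zs (a p) \ Z p ⊆ σ → σ ⊆ zs (a p) →
      cn (a p) (Z p) fun j => if j ∈ σ then 0 else 1 := fun σ p b c d j => by
    have := b j
    have := @c j
    have := @d j
    simp only [mem_sdiff, mem_zs] at *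
    grind
  refine core (fun p => D p ∧ ∀ j, a p j ≤ 1) (fun p => zs (a p) \ Z p) (fun p => zs (a p))
    (fun p h => ⟨?_, (h1 p h.1).2⟩) (fun σ h => ?_) fun σ p q b c d e f g =>
      h3 _ p q b.1 c.1 (k σ p b.2 d e) (k σ q c.2 f g)
  · have := (h1 p h.1).1
    have := (card_le_card (sdiff_subset_sdiff (subset_univ (zs (a p))) Subset.rfl)).trans
      (card_univ_sdiff (Z p)).le
    rw [Fintype.card_fin] at this
    omega
  · obtain ⟨p, b, c⟩ := h2 (fun j => if j ∈ σ then 0 else 1) (by convert h; ext; simp [zs])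
    refine ⟨p, ⟨b, fun j => ?_⟩, fun j => ?_, fun j => ?_⟩ <;> have := c j <;>
      clear * - this <;> simp only [mem_sdiff, mem_zs] at * <;> by_cases j ∈ Z p <;> grind

end Pool.Agent.H.MP_7ffbdd_al
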