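import Mathlib
import Pool.Agent.H.MP_7ffbdd_al.A
set_option autoImplicit false

namespace Pool.Agent.H.MP_7ffbdd_al
open Finset CategoryTheory Abelian MvPolynomial RingTheory.Sequence

abbrev S (n : ℕ) := MvPolynomial (Fin n) ℚ

noncomputable abbrev mm (n : ℕ) : Ideal (S n) := RingHom.ker constantCoeff

variable {n : ℕ}

def Dp (k : ℕ) (M : Type) [AddCommGroup M] [Module (S n) M] : Prop :=
  ∀ i < k, Subsingleton (Ext (ModuleCat.of (S n) (S n ⧸ mm n)) (ModuleCat.of (S n) M) i)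

theorem dp {k : ℕ} {A B C : Type} [AddCommGroup A] [Module (S n) A] [AddCommGroup B] [Module (S n) B]
    [AddCommGroup C] [Module (S n) C] (f : A →ₗ[S n] B) (g : B →ₗ[S n] C) (e : Function.Exact f g)
    (a : Function.Injective f) (b : Function.Surjective g) :
    (Dp (n := n) k A → Dp (n := n) k C → Dp (n := n) k B) ∧
      (Dp (n := n) (k + 1) A → Dp (n := n) k B → Dp (n := n) k C) := by
  have h := ModuleCat.shortComplex_shortExact
    (ModuleCat.shortComplexOfCompEqZero f g e.linearMap_comp_eq_zero) e a b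
  refine ⟨fun c d i hi => subsingleton_of_forall_eq 0 fun x => ?_,
    fun c d i hi => subsingleton_of_forall_eq 0 fun x => ?_⟩
  · obtain ⟨y, rfl⟩ := Ext.covariant_sequence_exact₂ _ h x ((d i hi).elim _ _)
    rw [(c i hi).elim y 0, Ext.zero_comp]
  · obtain ⟨y, rfl⟩ := Ext.covariant_sequence_exact₃ _ h x rfl ((c _ (by omega)).elim _ _)
    rw [(d i hi).elim y 0, Ext.zero_comp]

theorem mv {k : ℕ} {I J : Ideal (S n)} (a : Dp (n := n) k I) (b : Dp (n := n) k J)
    (c : Dp (n := n) (k + 1) (I ⊓ J : Ideal (S n))) : Dp (n := n) k (I ⊔ J : Ideal (S n)) := by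
  refine (dp ((Submodule.inclusion inf_le_left).prod (-Submodule.inclusion inf_le_right))
    ((Submodule.inclusion le_sup_left).coprod (Submodule.inclusion le_sup_right)) (fun x => ⟨fun h => ?_, ?_⟩)
    (fun x y h => Submodule.inclusion_injective _ (congrArg Prod.fst h)) fun x => ?_).2 c
    ((dp _ _ Function.Exact.inl_snd LinearMap.inl_injective LinearMap.snd_surjective).1 a b)
  · have h : x.1.1 = -x.2.1 := eq_neg_of_add_eq_zero_left (congrArg Subtype.val h)
    exact ⟨⟨x.1, x.1.2, h ▸ neg_mem x.2.2⟩, Prod.ext rfl (Subtype.ext (neg_eq_iff_eq_neg.2 h))⟩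
  · rintro ⟨y, rfl⟩
    exact Subtype.ext (add_neg_cancel y.1)
  · obtain ⟨y, c, z, d, e⟩ := Submodule.mem_sup.1 x.2
    exact ⟨(⟨y, c⟩, ⟨z, d⟩), Subtype.ext e⟩

theorem nak {I : Ideal (S n)} (h : I ≠ ⊥) : mm n • (⊤ : Submodule (S n) I) < ⊤ := by
  refine lt_top_iff_ne_top.2 fun e => h ((Submodule.eq_bot_iff _).2 fun x hx => ?_)
  obtain ⟨r, a, b⟩ := Submodule.exists_sub_one_mem_and_smul_eq_zero_of_fg_of_le_smul _ _
    Module.Finite.fg_top e.ge
  refine (mul_eq_zero.1 (congrArg Subtype.val (b ⟨x, hx⟩ trivial))).resolve_left fun c => ?_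
  simp [c] at a

theorem sp : Module.support (S n) (S n ⧸ mm n) = PrimeSpectrum.zeroLocus (mm n) := by
  rw [Module.support_eq_zeroLocus, Ideal.annihilator_quotient]

theorem base {I : Ideal (S n)} (h : I ≠ ⊥) [I.IsPrincipal] : Dp (n := n) n I := by
  have m : ∀ r ∈ (List.finRange n).map (X : _ → S n), r ∈ mm n := by simp
  have := ModuleCat.subsingleton_ext_of_exists_isRegular (mm n) (ModuleCat.of (S n) (S n ⧸ mm n)) sp.le
    (ModuleCat.of (S n) I) (nak h) _ m ⟨((Ideal.isoBaseOfIsPrincipal h).isWeaklyRegular_congr _).1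
      ⟨fun i hi => (isSMulRegular_quotient_iff_mem_of_smul_mem _ _).2 fun x => ?_⟩,
      ((Submodule.smul_mono_left (Ideal.span_le.2 m)).trans_lt (nak h)).ne'⟩
  · simpa [Dp] using this
  have e : {r | r ∈ ((List.finRange n).map (X : _ → S n)).take i} = X '' {j | j.1 < i} := by
    ext r
    simp only [← List.map_take, List.mem_map, Set.mem_ofPred_eq, Set.mem_image, List.mem_take_iff_getElem]
    refine exists_congr fun j => and_congr_left' ⟨?_, fun a => ⟨j, by simp [a], by simp⟩⟩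
    rintro ⟨j, a, rfl⟩
    simpa using (lt_min_iff.1 a).1
  simp only [smul_eq_mul, Ideal.mul_top, Ideal.ofList, e, mem_ideal_span_X_image, List.getElem_map,
    support_X_mul, mem_map, addLeftEmbedding_apply]
  intro a m hm
  obtain ⟨j, b, c⟩ := a _ ⟨m, hm, rfl⟩
  refine ⟨j, b, ?_⟩
  rwa [Finsupp.add_apply, Finsupp.single_eq_of_ne fun e => by simp [e] at b, zero_add] at c

noncomputable def J (A : Set (Finset (Fin n))) : Ideal (S n) :=
  Ideal.span ((fun a => monomial a (1 : ℚ)) '' {b | ∃ τ ∈ A, zs b ⊆ τ})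

theorem mem_J {A : Set (Finset (Fin n))} {x : S n} :
    x ∈ J A ↔ ∀ b ∈ x.support, ∃ τ ∈ A, zs b ⊆ τ :=
  mem_ideal_span_monomial_image.trans (forall₂_congr fun b _ => ⟨fun ⟨_, ⟨τ, c, d⟩, e⟩ => ⟨τ, c,
    fun j f => d (mem_zs.2 (Nat.le_zero.1 ((e j).trans_eq (mem_zs.1 f))))⟩, fun h => ⟨b, h, le_rfl⟩⟩)

theorem mon_J {A : Set (Finset (Fin n))} {b : Fin n →₀ ℕ} :
    monomial b 1 ∈ J A ↔ ∃ τ ∈ A, zs b ⊆ τ := by simp [mem_J, support_monomial]

def Q (k : ℕ) (A : Set (Finset (Fin n))) : Prop := Dp (n := n) k (J A)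

theorem one {k : ℕ} (h : k ≤ n) (σ : Finset (Fin n)) : Q k {σ} := by
  let c : Fin n →₀ ℕ := Finsupp.equivFunOnFinite.symm fun j => if j ∈ σ then 0 else 1
  have e : J {σ} = Ideal.span ((fun a => monomial a (1 : ℚ)) '' {c}) := by
    ext x
    simp only [mem_J, mem_ideal_span_monomial_image, Set.mem_singleton_iff, exists_eq_left, subset_iff,
      mem_zs, Finsupp.le_def]
    refine forall₂_congr fun b _ => forall_congr' fun j => ?_
    by_cases d : j ∈ σ <;> simp [c, d, Nat.one_le_iff_ne_zero]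
  rw [Set.image_singleton] at e
  rw [Q, e]
  exact fun i hi => base (by simp) i (hi.trans_le h)

theorem rule {k : ℕ} {A B C : Set (Finset (Fin n))} (a : Q k A) (b : Q k B) (c : Q (k + 1) C)
    (h : ∀ ρ, (∃ γ ∈ C, ρ ⊆ γ) ↔ (∃ γ ∈ A, ρ ⊆ γ) ∧ ∃ γ ∈ B, ρ ⊆ γ) : Q k (A ∪ B) := by
  have e : J (A ∪ B) = J A ⊔ J B := by
    simp only [J, ← Ideal.span_union, ← Set.image_union, Set.mem_union, or_and_right, exists_or]
    rfl
  have f : J C = J A ⊓ J B := by
    ext x
    simp only [Ideal.mem_inf, mem_J, h, forall₂_and]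
  rw [Q, f] at c
  rw [Q, e]
  exact mv a b c

theorem fin {k : ℕ} {A : Set (Finset (Fin n))} (a : Q k A) (h : J A ≠ ⊥) :
    ∃ rs : List (S n), rs.length = k ∧ (∀ r ∈ rs, constantCoeff r = 0) ∧ IsRegular (J A) rs :=
  ModuleCat.exists_isRegular_of_exists_subsingleton_ext (mm n) k (ModuleCat.of (S n) (J A)) (nak h)
    (ModuleCat.of (S n) (S n ⧸ mm n)) sp a

end Pool.Agent.H.MP_7ffbdd_al
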